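import Mathlib

set_option autoImplicit false

/-!
# Definitions for MP_d1604f_al

A reduced Hermite ring of prime characteristic which is not an elementary divisor ring and whose
perfection is an elementary divisor ring.
-/

namespace Pool.Agent.Run7.h54.HP

/-- `A` admits diagonal reduction. -/
def DiagRed {R : Type} [CommRing R] {m n : ℕ} (A : Matrix (Fin m) (Fin n) R) : Prop :=
  ∃ (P : Matrix (Fin m) (Fin m) R) (Q : Matrix (Fin n) (Fin n) R) (d : ℕ → R),
    IsUnit P ∧ IsUnit Q ∧ (∀ i : ℕ, i + 1 < min m n → d i ∣ d (i + 1)) ∧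
      ∀ (i : Fin m) (j : Fin n), (P * A * Q) i j = if (i : ℕ) = (j : ℕ) then d i else 0

/-- Hermite rings. -/
def IsHermite (R : Type) [CommRing R] : Prop := ∀ A : Matrix (Fin 1) (Fin 2) R, DiagRed A

/-- Elementary divisor rings. -/
def IsEDR (R : Type) [CommRing R] : Prop :=
  ∀ (m n : ℕ) (A : Matrix (Fin m) (Fin n) R), DiagRed A

/-- The working form of the Hermite condition. -/
def Her (R : Type) [CommRing R] : Prop :=
  ∀ a b : R, ∃ d u v s r : R, a = d * u ∧ b = d * v ∧ s * u + r * v = 1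

/-- Kaplansky's condition on unimodular triples. -/
def Tri (R : Type) [CommRing R] : Prop :=
  ∀ a b c a' b' c' : R, a * a' + b * b' + c * c' = 1 →
    ∃ x y z w : R, z * (x * a) + w * (x * b + y * c) = 1

/-- Kaplansky's condition for a power. -/
def TriPow (p : ℕ) (R : Type) [CommRing R] : Prop :=
  ∀ a b c a' b' c' : R, a * a' + b * b' + c * c' = 1 →
    ∃ (k : ℕ) (x y z w : R),
      z * (x * a ^ p ^ k) + w * (x * b ^ p ^ k + y * c ^ p ^ k) = 1

/-- PIECE KAP (Kaplansky's theorem). -/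
def P_KAP : Prop := ∀ (R : Type) [CommRing R], Her R → Tri R → IsEDR R

/-- PIECE FLD (the fields). -/
def P_FLD : Prop := ∃ (p : ℕ) (_ : Fact p.Prime) (H : Type) (_ : Field H) (_ : CharP H p)
  (_ : IsAlgClosed H) (_ : Countable H) (C : Subfield H),
  (∀ x : H, ∃ k : ℕ, x ^ p ^ k ∈ C) ∧ ∃ l : H, l ∉ C

/-- PIECE COL (the colimit of a sequence of endomorphisms solving all tasks). -/
def P_COL : Prop := ∀ (T : Type) [CommRing T] [Countable T] (M : Set (T →+* T)),
  RingHom.id T ∈ M → (∀ f ∈ M, ∀ g ∈ M, f.comp g ∈ M) →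
  ∀ Pr : (Fin 6 → T) → Prop, (∀ x : Fin 6 → T, ∃ f ∈ M, Pr (fun i => f (x i))) →
  ∃ (R : Type) (_ : CommRing R) (φ : ℕ → (T →+* R)) (ψ : ℕ → ℕ → (T →+* T)),
    (∀ k l, k ≤ l → ψ k l ∈ M ∧ ∀ x, φ l (ψ k l x) = φ k x) ∧
    (∀ r : R, ∃ k x, φ k x = r) ∧
    (∀ k x, φ k x = 0 → ∃ l, k ≤ l ∧ ψ k l x = 0) ∧
    (∀ k (x : Fin 6 → T), ∃ l, k ≤ l ∧ Pr (fun i => ψ k l (x i)))

/-- PIECE PRF (the perfection). -/
def P_PRF : Prop := ∀ (p : ℕ) [Fact p.Prime] (R : Type) [CommRing R] [CharP R p],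
  Her R → TriPow p R → Her (PerfectClosure R p) ∧ Tri (PerfectClosure R p)

/-- Chains of polynomials: `f i (1) = f (i + 1) (0)`, and `f` is eventually a constant. -/
def chain (H : Type) [Field H] : Subring (ℕ → Polynomial H) where
  carrier := {f | (∀ i, (f i).eval 1 = (f (i + 1)).eval 0) ∧
    ∃ (N : ℕ) (c : H), ∀ i, N ≤ i → f i = Polynomial.C c}
  mul_mem' := by
    rintro f g ⟨hf, N, c, hc⟩ ⟨hg, M, e, he⟩
    refine ⟨fun i => ?_, max N M, c * e, fun i hi => ?_⟩
    · rw [Pi.mul_apply, Pi.mul_apply, Polynomial.eval_mul, Polynomial.eval_mul, hf, hg]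
    · rw [Pi.mul_apply, hc i (le_trans (le_max_left _ _) hi),
        he i (le_trans (le_max_right _ _) hi), Polynomial.C_mul]
  one_mem' := ⟨fun i => by rw [Pi.one_apply, Pi.one_apply, Polynomial.eval_one,
    Polynomial.eval_one], 0, 1, fun i _ => by rw [Pi.one_apply, Polynomial.C_1]⟩
  add_mem' := by
    rintro f g ⟨hf, N, c, hc⟩ ⟨hg, M, e, he⟩
    refine ⟨fun i => ?_, max N M, c + e, fun i hi => ?_⟩
    · rw [Pi.add_apply, Pi.add_apply, Polynomial.eval_add, Polynomial.eval_add, hf, hg]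
    · rw [Pi.add_apply, hc i (le_trans (le_max_left _ _) hi),
        he i (le_trans (le_max_right _ _) hi), Polynomial.C_add]
  zero_mem' := ⟨fun i => by rw [Pi.zero_apply, Pi.zero_apply, Polynomial.eval_zero,
    Polynomial.eval_zero], 0, 0, fun i _ => by rw [Pi.zero_apply, Polynomial.C_0]⟩
  neg_mem' := by
    rintro f ⟨hf, N, c, hc⟩
    refine ⟨fun i => ?_, N, -c, fun i hi => ?_⟩
    · rw [Pi.neg_apply, Pi.neg_apply, Polynomial.eval_neg, Polynomial.eval_neg, hf]
    · rw [Pi.neg_apply, hc i hi, Polynomial.C_neg]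

/-- PIECE CNT (countability of the chains). -/
def P_CNT : Prop := ∀ (H : Type) [Field H] [Countable H], Countable (chain H)

end Pool.Agent.Run7.h54.HP
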